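import Pool.Agent.H500.AS.Stm
import Pool.Graph.R_pool_sql_team_seeded_3997aac3.Q149.AR.VA2

/-! # Project AS (owner helper500), part 1 (helper297): a normal basis which is integral at `p` -/

set_option autoImplicit false
set_option linter.unusedSectionVars false

namespace Pool.Agent.H297.AS.NB

open NumberField IsDedekindDomain Pool.Agent.Q92.AR
open scoped Pointwise

section gal

variable {F E : Type} [Field F] [NumberField F] [Field E] [NumberField E] [Algebra F E]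
  [IsGalois F E]

/-- the span of the conjugates of `θ` -/
def LL (F : Type) {E : Type} [Field F] [NumberField F] [Field E] [NumberField E] [Algebra F E]
    (θ : 𝓞 E) : Submodule (𝓞 F) (𝓞 E) :=
  Submodule.span (𝓞 F) (Set.range fun g : E ≃ₐ[F] E => g • θ)

theorem smul_LL {θ y : 𝓞 E} (g : E ≃ₐ[F] E) (hy : y ∈ LL F θ) : g • y ∈ LL F θ := by
  unfold LL at hy ⊢
  induction hy using Submodule.span_induction with
  | mem z hz =>
    obtain ⟨h, rfl⟩ := hz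
    refine Submodule.subset_span ⟨g * h, ?_⟩
    exact mul_smul g h θ
  | zero => rw [smul_zero]; exact zero_mem _
  | add x y _ _ hx hy => rw [smul_add]; exact add_mem hx hy
  | smul a x _ hx => rw [smul_comm]; exact Submodule.smul_mem _ _ hx

/-- the span of the conjugates under the decomposition group -/
def LD (F : Type) {E : Type} [Field F] [NumberField F] [Field E] [NumberField E] [Algebra F E]
    (Q : Ideal (𝓞 E)) (θ : 𝓞 E) : Submodule (𝓞 F) (𝓞 E) :=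
  Submodule.span (𝓞 F) {z | ∃ d : E ≃ₐ[F] E, d • Q = Q ∧ z = d • θ}

theorem LD_le (Q : Ideal (𝓞 E)) (θ : 𝓞 E) : LD F Q θ ≤ LL F θ := by
  refine Submodule.span_mono ?_
  rintro z ⟨d, -, rfl⟩
  exact ⟨d, rfl⟩

theorem gamma (Q : Ideal (𝓞 E)) [hQp : Q.IsPrime] (hQ : Q ≠ ⊥) : ∃ t : 𝓞 E, ∀ θ : 𝓞 E,
    θ - t ∈ Q → ∀ x : 𝓞 E, ∃ y ∈ LD F Q θ, x - y ∈ Q := by
  classical
  obtain ⟨P, hP⟩ : ∃ P : Ideal (𝓞 F), P = Q.under (𝓞 F) := ⟨_, rfl⟩
  have hQm : Q.IsMaximal := hQp.isMaximal hQ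
  have hPm : P.IsMaximal := by
    rw [hP]
    exact Ideal.isMaximal_comap_of_isIntegral_of_isMaximal Q
  have hlo : Q.LiesOver P := ⟨hP⟩
  let _ : Field (𝓞 F ⧸ P) := Ideal.Quotient.field P
  let _ : Field (𝓞 E ⧸ Q) := Ideal.Quotient.field Q
  have hfin : Finite (𝓞 E ⧸ Q) := Ideal.finiteQuotientOfFreeOfNeBot Q hQ
  let b := IsGalois.normalBasis (𝓞 F ⧸ P) (𝓞 E ⧸ Q)
  have hb : ∀ τ, b τ = τ (b 1) := fun τ => IsGalois.normalBasis_apply τ
  obtain ⟨t, ht⟩ := Ideal.Quotient.mk_surjective (b 1)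
  refine ⟨t, fun θ hθ x => ?_⟩
  have hθ' : Ideal.Quotient.mk Q θ = b 1 := by
    rw [← ht]
    exact Ideal.Quotient.eq.2 hθ
  have hsurj := Ideal.Quotient.stabilizerHom_surjective (E ≃ₐ[F] E) P Q
  choose s hs using hsurj
  choose a ha using fun τ => Ideal.Quotient.mk_surjective (b.repr (Ideal.Quotient.mk Q x) τ)
  have hft : Fintype ((𝓞 E ⧸ Q) ≃ₐ[𝓞 F ⧸ P] (𝓞 E ⧸ Q)) := Fintype.ofFinite _
  refine ⟨∑ τ, a τ • ((s τ : E ≃ₐ[F] E) • θ), ?_, ?_⟩
  · refine sum_mem fun τ _ => Submodule.smul_mem _ _ (Submodule.subset_span ?_)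
    exact ⟨(s τ : E ≃ₐ[F] E), (s τ).2, rfl⟩
  · rw [← Ideal.Quotient.eq, map_sum]
    rw [← b.sum_repr (Ideal.Quotient.mk Q x)]
    refine Finset.sum_congr rfl fun τ _ => ?_
    have h1 : Ideal.Quotient.mk Q ((s τ : E ≃ₐ[F] E) • θ) = b τ := by
      rw [hb τ, ← hθ']
      have h2 := Ideal.Quotient.stabilizerHom_apply (P := Q) (p := P) (G := E ≃ₐ[F] E) (s τ) θ
      rw [hs τ] at h2
      exact h2.symm
    rw [← h1, ← ha τ, Algebra.smul_def (a τ) ((s τ : E ≃ₐ[F] E) • θ), map_mul, Algebra.smul_def]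
    rfl

theorem one_prime {Q : Ideal (𝓞 E)} [hQp : Q.IsPrime] {θ : 𝓞 E}
    (h1 : ∀ x : 𝓞 E, ∃ y ∈ LD F Q θ, x - y ∈ Q)
    (h2 : ∀ Q' : Ideal (𝓞 E), Q'.IsPrime → Q'.under (𝓞 F) = Q.under (𝓞 F) → Q' ≠ Q → θ ∈ Q')
    (W : Ideal (𝓞 E)) [hWp : W.IsPrime] (hW : W.under (𝓞 F) = Q.under (𝓞 F)) (x : 𝓞 E) :
    ∃ y ∈ LL F θ, x - y ∈ W ∧ ∀ W' : Ideal (𝓞 E), W'.IsPrime →
      W'.under (𝓞 F) = Q.under (𝓞 F) → W' ≠ W → y ∈ W' := by
  obtain ⟨g, hg⟩ := Algebra.IsInvariant.exists_smul_of_under_eq (𝓞 F) (𝓞 E) (E ≃ₐ[F] E) Q W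
    hW.symm
  obtain ⟨y, hy, hxy⟩ := h1 (g⁻¹ • x)
  refine ⟨g • y, smul_LL g (LD_le _ _ hy), ?_, ?_⟩
  · rw [hg, Ideal.mem_pointwise_smul_iff_inv_smul_mem, smul_sub, inv_smul_smul]
    exact hxy
  · intro W' hW' hu hne
    rw [← Ideal.mem_inv_pointwise_smul_iff]
    have hle : LD F Q θ ≤ (g⁻¹ • W').restrictScalars (𝓞 F) := by
      refine Submodule.span_le.2 ?_
      rintro z ⟨d, hd, rfl⟩
      show d • θ ∈ g⁻¹ • W'
      rw [← Ideal.mem_inv_pointwise_smul_iff]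
      have hpr : (d⁻¹ • g⁻¹ • W').IsPrime := (hW'.smul g⁻¹).smul d⁻¹
      refine h2 _ hpr ?_ ?_
      · rw [Ideal.under_smul, Ideal.under_smul, hu]
      · intro h3
        apply hne
        rw [inv_smul_eq_iff, inv_smul_eq_iff, hd, ← hg] at h3
        exact h3
    exact hle hy

theorem all_primes {Q : Ideal (𝓞 E)} [hQp : Q.IsPrime] (hQ : Q ≠ ⊥) {θ : 𝓞 E}
    (h1 : ∀ x : 𝓞 E, ∃ y ∈ LD F Q θ, x - y ∈ Q)
    (h2 : ∀ Q' : Ideal (𝓞 E), Q'.IsPrime → Q'.under (𝓞 F) = Q.under (𝓞 F) → Q' ≠ Q → θ ∈ Q')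
    (x : 𝓞 E) : ∃ y ∈ LL F θ, ∀ W : Ideal (𝓞 E), W.IsPrime →
      W.under (𝓞 F) = Q.under (𝓞 F) → x - y ∈ W := by
  classical
  have hQm : Q.IsMaximal := hQp.isMaximal hQ
  have hPm : (Q.under (𝓞 F)).IsMaximal := Ideal.isMaximal_comap_of_isIntegral_of_isMaximal Q
  have hfin : (Ideal.primesOver (Q.under (𝓞 F)) (𝓞 E)).Finite := IsDedekindDomain.primesOver_finite _ _
  have hmem : ∀ W : Ideal (𝓞 E), W ∈ hfin.toFinset ↔
      (W.IsPrime ∧ W.under (𝓞 F) = Q.under (𝓞 F)) := by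
    intro W
    rw [Set.Finite.mem_toFinset]
    constructor
    · rintro ⟨hW, hW2⟩
      exact ⟨hW, hW2.over.symm⟩
    · rintro ⟨hW, hW2⟩
      exact ⟨hW, ⟨hW2.symm⟩⟩
  have key : ∀ W : Ideal (𝓞 E), ∃ y ∈ LL F θ, W ∈ hfin.toFinset → x - y ∈ W ∧
      ∀ W' ∈ hfin.toFinset, W' ≠ W → y ∈ W' := by
    intro W
    by_cases hW : W ∈ hfin.toFinset
    · obtain ⟨hWp, hW2⟩ := (hmem W).1 hW
      obtain ⟨y, hy, h3, h4⟩ := one_prime h1 h2 W hW2 x
      refine ⟨y, hy, fun _ => ⟨h3, fun W' hW' hne => ?_⟩⟩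
      obtain ⟨hWp', hW2'⟩ := (hmem W').1 hW'
      exact h4 W' hWp' hW2' hne
    · exact ⟨0, zero_mem _, fun h => absurd h hW⟩
  choose y hy hy2 using key
  refine ⟨∑ W ∈ hfin.toFinset, y W, sum_mem fun W _ => hy W, ?_⟩
  intro W hWp hW2
  have hW : W ∈ hfin.toFinset := (hmem W).2 ⟨hWp, hW2⟩
  rw [← Finset.add_sum_erase _ _ hW, ← sub_sub]
  refine W.sub_mem (hy2 W hW).1 (W.sum_mem fun W' hW' => ?_)
  rw [Finset.mem_erase] at hW'
  exact (hy2 W' hW'.2).2 W hW hW'.1.symm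

/-- an element of all the primes above an unramified prime is in the extended ideal -/
theorem mem_map {v : HeightOneSpectrum (𝓞 F)} (hv : Unramified E v) {z : 𝓞 E}
    (hz : ∀ W : Ideal (𝓞 E), W.IsPrime → W.under (𝓞 F) = v.asIdeal → z ∈ W) :
    z ∈ v.asIdeal.map (algebraMap (𝓞 F) (𝓞 E)) := by
  obtain ⟨J, hJ⟩ : ∃ J : Ideal (𝓞 E), J = v.asIdeal.map (algebraMap (𝓞 F) (𝓞 E)) := ⟨_, rfl⟩
  rw [← hJ]
  have hJ0 : J ≠ 0 := by
    rw [hJ]
    intro h
    exact v.ne_bot ((Ideal.map_eq_bot_iff_of_injective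
      (FaithfulSMul.algebraMap_injective (𝓞 F) (𝓞 E))).1 h)
  have hover : ∀ W : Ideal (𝓞 E), W.IsPrime → J ≤ W → W.under (𝓞 F) = v.asIdeal := by
    intro W hW hle
    have h1 : v.asIdeal ≤ W.under (𝓞 F) := by
      rw [hJ, Ideal.map_le_iff_le_comap] at hle
      exact hle
    have h2 : (W.under (𝓞 F)) ≠ ⊤ := (Ideal.IsPrime.under (𝓞 F) W).ne_top
    exact (v.isMaximal.eq_of_le h2 h1).symm
  have hsq : Squarefree J := by
    rw [squarefree_iff_no_irreducibles hJ0]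
    intro W hW hd
    have hWp : Prime W := hW.prime
    have hWpr : W.IsPrime := Ideal.isPrime_of_prime hWp
    have hle : J ≤ W ^ 2 := by
      rw [sq]
      exact Ideal.le_of_dvd hd
    have hle1 : J ≤ W := hle.trans (Ideal.pow_le_self two_ne_zero)
    refine hv ⟨W, hWpr, hWp.ne_zero⟩ (HeightOneSpectrum.ext (hover W hWpr hle1)) ?_
    rw [← hJ]
    exact hle
  have hrad : IsRadical J := (isRadical_iff_squarefree_of_ne_zero hJ0).2 hsq
  have hzr : z ∈ J.radical := by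
    rw [Ideal.radical_eq_sInf, Ideal.mem_sInf]
    intro W hW
    exact hz W hW.2 (hover W hW.2 hW.1)
  obtain ⟨n, hn⟩ := hzr
  have h1 : J ∣ Ideal.span {z} ^ n := by
    rw [Ideal.span_singleton_pow, Ideal.dvd_span_singleton]
    exact hn
  exact Ideal.dvd_span_singleton.1 (hrad n _ h1)

/-- `𝓞 E` is generated by `L` modulo `I` -/
def TT (L : Submodule (𝓞 F) (𝓞 E)) (I : Ideal (𝓞 F)) : Prop := ⊤ ≤ L ⊔ I • (⊤ : Submodule (𝓞 F) (𝓞 E))

theorem TT_one (L : Submodule (𝓞 F) (𝓞 E)) : TT L 1 := by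
  unfold TT
  rw [Ideal.one_eq_top, Submodule.top_smul]
  exact le_sup_right

theorem TT_mul {L : Submodule (𝓞 F) (𝓞 E)} {I I' : Ideal (𝓞 F)} (h : TT L I) (h' : TT L I') :
    TT L (I * I') := by
  unfold TT at *
  refine h.trans (sup_le le_sup_left ?_)
  refine (Submodule.smul_mono (le_refl I) h').trans ?_
  rw [Submodule.smul_sup, ← Submodule.mul_smul]
  exact sup_le (Submodule.smul_le_right.trans le_sup_left) le_sup_right

theorem TT_of {L : Submodule (𝓞 F) (𝓞 E)} {v : HeightOneSpectrum (𝓞 F)} (hv : Unramified E v)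
    (h : ∀ x : 𝓞 E, ∃ y ∈ L, ∀ W : Ideal (𝓞 E), W.IsPrime → W.under (𝓞 F) = v.asIdeal →
      x - y ∈ W) : TT L v.asIdeal := by
  intro x _
  obtain ⟨y, hy, hxy⟩ := h x
  have h1 := mem_map hv hxy
  rw [Ideal.smul_top_eq_map]
  have h2 : x = y + (x - y) := by ring
  rw [h2]
  exact Submodule.add_mem_sup hy h1

theorem TT_prod {L : Submodule (𝓞 F) (𝓞 E)} {I : Ideal (𝓞 F)} (hI : I ≠ 0)
    (h : ∀ v : HeightOneSpectrum (𝓞 F), I ≤ v.asIdeal → TT L v.asIdeal) : TT L I := by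
  rw [← Ideal.prod_normalizedFactors_eq_self hI]
  refine Multiset.prod_induction (TT L) _ (fun a b ha hb => TT_mul ha hb) (TT_one L) ?_
  intro P hP
  have hPp : Prime P := UniqueFactorizationMonoid.prime_of_normalized_factor P hP
  have hPd : P ∣ I := UniqueFactorizationMonoid.dvd_of_mem_normalizedFactors hP
  exact h ⟨P, Ideal.isPrime_of_prime hPp, hPp.ne_zero⟩ (Ideal.le_of_dvd hPd)

/-- a prime above -/
theorem exists_over (F E : Type) [Field F] [NumberField F] [Field E] [NumberField E] [Algebra F E]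
    (v : HeightOneSpectrum (𝓞 F)) :
    ∃ Q : Ideal (𝓞 E), Q.IsPrime ∧ Q ≠ ⊥ ∧ Q.under (𝓞 F) = v.asIdeal := by
  have hvm : v.asIdeal.IsMaximal := v.isMaximal
  obtain ⟨P, hP, hPw⟩ := Ideal.exists_ideal_over_maximal_of_isIntegral (S := 𝓞 E) v.asIdeal (by
    rw [(RingHom.injective_iff_ker_eq_bot _).1 (FaithfulSMul.algebraMap_injective (𝓞 F) (𝓞 E))]
    exact bot_le)
  refine ⟨P, hP.isPrime, ?_, hPw⟩
  rintro rfl
  apply v.ne_bot
  rw [← hPw, ← RingHom.ker_eq_comap_bot]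
  exact (RingHom.injective_iff_ker_eq_bot _).1 (FaithfulSMul.algebraMap_injective (𝓞 F) (𝓞 E))

/-- the element `θ` -/
theorem exists_theta (p : ℕ) (hp : p.Prime) (hur : Pool.Agent.H500.AS.UnrAt F E p) :
    ∃ θ : 𝓞 E, TT (LL F θ) (Ideal.span {(p : 𝓞 F)}) := by
  classical
  choose Q hQp hQ0 hQv using exists_over F E
  choose t ht using fun v => gamma (F := F) (Q v) (hQ0 v)
  have hp0 : Ideal.span {(p : 𝓞 E)} ≠ 0 := by
    rw [Ne, Ideal.zero_eq_bot, Ideal.span_singleton_eq_bot]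
    exact Nat.cast_ne_zero.2 hp.ne_zero
  have hfin := Ideal.finite_factors hp0
  obtain ⟨x, hx⟩ : ∃ x : HeightOneSpectrum (𝓞 E) → 𝓞 E, ∀ w, x w =
      if w.asIdeal = Q (w.under (𝓞 F)) then t (w.under (𝓞 F)) else 0 := ⟨_, fun _ => rfl⟩
  obtain ⟨θ, hθ⟩ := IsDedekindDomain.exists_forall_sub_mem_ideal (s := hfin.toFinset)
    (fun w : HeightOneSpectrum (𝓞 E) => w.asIdeal) (fun _ => 1) (fun w _ => w.prime)
    (fun w _ w' _ hne h => hne (HeightOneSpectrum.ext h)) (fun w => x w.1)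
  have hθ' : ∀ w : HeightOneSpectrum (𝓞 E), (p : 𝓞 E) ∈ w.asIdeal → θ - x w ∈ w.asIdeal := by
    intro w hw
    have h1 := hθ w (by
      rw [Set.Finite.mem_toFinset]
      exact Ideal.dvd_span_singleton.2 hw)
    rwa [pow_one] at h1
  refine ⟨θ, TT_prod ?_ fun v hv => ?_⟩
  · rw [Ne, Ideal.zero_eq_bot, Ideal.span_singleton_eq_bot]
    exact Nat.cast_ne_zero.2 hp.ne_zero
  have hpv : (p : 𝓞 F) ∈ v.asIdeal := hv (Ideal.mem_span_singleton_self _)
  have hpW : ∀ W : Ideal (𝓞 E), W.under (𝓞 F) = v.asIdeal → (p : 𝓞 E) ∈ W := by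
    intro W hW
    rw [← hW] at hpv
    have h1 : algebraMap (𝓞 F) (𝓞 E) (p : 𝓞 F) ∈ W := hpv
    rwa [map_natCast] at h1
  have hW0 : ∀ W : Ideal (𝓞 E), W.under (𝓞 F) = v.asIdeal → W ≠ ⊥ := by
    intro W hW h
    have h1 := hpW W hW
    rw [h, Ideal.mem_bot] at h1
    exact hp.ne_zero (by exact_mod_cast h1)
  have hunder : ∀ w : HeightOneSpectrum (𝓞 E), w.asIdeal.under (𝓞 F) = v.asIdeal →
      w.under (𝓞 F) = v := fun w hw => HeightOneSpectrum.ext hw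
  refine TT_of (hur v hpv) ?_
  have hQpv := hQp v
  have hall := all_primes (F := F) (Q := Q v) (hQ0 v) (θ := θ) ?_ ?_
  · rw [hQv v] at hall
    exact hall
  · refine ht v θ ?_
    have h1 := hθ' ⟨Q v, hQp v, hQ0 v⟩ (hpW _ (hQv v))
    rw [hx, hunder ⟨Q v, hQp v, hQ0 v⟩ (hQv v), if_pos rfl] at h1
    exact h1
  · intro W hWp hWu hne
    rw [hQv v] at hWu
    have h1 := hθ' ⟨W, hWp, hW0 W hWu⟩ (hpW _ hWu)
    rw [hx, hunder ⟨W, hWp, hW0 W hWu⟩ hWu, if_neg hne, sub_zero] at h1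
    exact h1

/-- the index is prime to `p` -/
theorem exists_index {L : Submodule (𝓞 F) (𝓞 E)} {p : ℕ} (hp : p.Prime)
    (h : TT L (Ideal.span {(p : 𝓞 F)})) : ∃ d : ℕ, ¬ p ∣ d ∧ ∀ x : 𝓞 E, (d : 𝓞 E) * x ∈ L := by
  have h1 : ∀ x : 𝓞 E, ∃ l ∈ L, ∃ y : 𝓞 E, x = l + (p : 𝓞 E) * y := by
    intro x
    have h2 : x ∈ L ⊔ Ideal.span {(p : 𝓞 F)} • (⊤ : Submodule (𝓞 F) (𝓞 E)) := h trivial
    obtain ⟨l, hl, z, hz, rfl⟩ := Submodule.mem_sup.1 h2
    rw [Ideal.smul_top_eq_map, Submodule.restrictScalars_mem, Ideal.map_span,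
      Set.image_singleton, map_natCast, Ideal.mem_span_singleton'] at hz
    obtain ⟨y, rfl⟩ := hz
    exact ⟨l, hl, y, by ring⟩
  obtain ⟨M, hM⟩ : ∃ M : Submodule ℤ (𝓞 E), M = L.restrictScalars ℤ := ⟨_, rfl⟩
  have hML : ∀ x, x ∈ M ↔ x ∈ L := by
    intro x
    rw [hM]
    exact Submodule.restrictScalars_mem _ _ _
  obtain ⟨r, hr, hr2⟩ := Submodule.exists_sub_one_mem_and_smul_eq_zero_of_fg_of_le_smul
    (Ideal.span {(p : ℤ)}) (⊤ : Submodule ℤ (𝓞 E ⧸ M)) Module.Finite.fg_top (by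
      intro z _
      obtain ⟨x, rfl⟩ := Submodule.Quotient.mk_surjective M z
      obtain ⟨l, hl, y, rfl⟩ := h1 x
      have h3 : (Submodule.Quotient.mk (l + (p : 𝓞 E) * y) : 𝓞 E ⧸ M) =
          (p : ℤ) • Submodule.Quotient.mk y := by
        rw [← Submodule.Quotient.mk_smul, Submodule.Quotient.eq, hML]
        have h4 : l + (p : 𝓞 E) * y - (p : ℤ) • y = l := by
          rw [zsmul_eq_mul]
          push_cast
          ring
        rw [h4]
        exact hl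
      rw [h3]
      exact Submodule.smul_mem_smul (Ideal.mem_span_singleton_self _) trivial)
  refine ⟨r.natAbs, ?_, ?_⟩
  · intro hd
    rw [← Int.natCast_dvd] at hd
    rw [Ideal.mem_span_singleton] at hr
    have h2 : (p : ℤ) ∣ 1 := by
      have := dvd_sub hd hr
      rwa [sub_sub_cancel] at this
    have h3 := Int.natCast_dvd_natCast.1 (show (p : ℤ) ∣ ((1 : ℕ) : ℤ) by exact_mod_cast h2)
    exact hp.one_lt.ne' (Nat.dvd_one.1 h3)
  · intro x
    have h2 := hr2 (Submodule.Quotient.mk x) trivial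
    rw [← Submodule.Quotient.mk_smul, Submodule.Quotient.mk_eq_zero, hML, zsmul_eq_mul] at h2
    rcases Int.natAbs_eq r with h3 | h3
    · rw [h3, Int.cast_natCast] at h2
      exact h2
    · rw [h3, Int.cast_neg, Int.cast_natCast, neg_mul] at h2
      exact (Submodule.neg_mem_iff _).1 h2

end gal

theorem main : Pool.Agent.H500.AS.S_NB := by
  intro F E _ _ _ _ _ _ p hp hur
  classical
  obtain ⟨θ, hθ⟩ := exists_theta (F := F) (E := E) p hp hur
  obtain ⟨d, hd, hdx⟩ := exists_index hp hθ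
  have hd0 : d ≠ 0 := by
    rintro rfl
    exact hd (dvd_zero p)
  have hdF : (d : F) ≠ 0 := Nat.cast_ne_zero.2 hd0
  -- coordinates
  have hcoord : ∀ x : 𝓞 E, ∃ c : (E ≃ₐ[F] E) → 𝓞 F,
      (d : E) * (x : E) = ∑ g, ((c g : 𝓞 F) : F) • (g (θ : E)) := by
    intro x
    obtain ⟨c, hc⟩ := (Submodule.mem_span_range_iff_exists_fun (𝓞 F)).1 (hdx x)
    refine ⟨c, ?_⟩
    have h1 := congrArg (fun z : 𝓞 E => (z : E)) hc
    simp only [map_sum, map_mul, map_natCast] at h1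
    rw [← h1]
    refine Finset.sum_congr rfl fun g _ => ?_
    rw [Algebra.smul_def, map_mul, Algebra.smul_def]
    rfl
  have hspan : ⊤ ≤ Submodule.span F (Set.range fun g : E ≃ₐ[F] E => g (θ : E)) := by
    intro z _
    obtain ⟨m, hm, hmz⟩ := Pool.Agent.Q149.AR.exists_natCast_mul_isIntegral z
    obtain ⟨c, hc⟩ := hcoord ⟨(m : E) * z, hmz⟩
    have hm0 : (m : F) ≠ 0 := Nat.cast_ne_zero.2 hm
    rw [Submodule.mem_span_range_iff_exists_fun]
    refine ⟨fun g => ((d : F) * m)⁻¹ * (c g : F), ?_⟩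
    have h1 : z = ((d : F) * m)⁻¹ • ((d : E) * ((m : E) * z)) := by
      rw [Algebra.smul_def, map_inv₀, map_mul, map_natCast, map_natCast]
      have h2 : (d : E) ≠ 0 := Nat.cast_ne_zero.2 hd0
      have h3 : (m : E) ≠ 0 := Nat.cast_ne_zero.2 hm
      field_simp
    have hc' : (d : E) * ((m : E) * z) = ∑ g, ((c g : 𝓞 F) : F) • (g (θ : E)) := hc
    rw [hc', Finset.smul_sum] at h1
    rw [h1]
    refine Finset.sum_congr rfl fun g _ => ?_
    rw [smul_smul]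
  have hcard : Fintype.card (E ≃ₐ[F] E) = Module.finrank F E := by
    rw [← Nat.card_eq_fintype_card]
    exact IsGalois.card_aut_eq_finrank F E
  obtain ⟨b, hb⟩ : ∃ b : Module.Basis (E ≃ₐ[F] E) F E, ∀ g, b g = g (θ : E) :=
    ⟨basisOfTopLeSpanOfCardEqFinrank _ hspan hcard, fun g => by
      rw [coe_basisOfTopLeSpanOfCardEqFinrank]⟩
  have hb1 : b 1 = (θ : E) := hb 1
  have hbg : ∀ g, b g = g (b 1) := by
    intro g
    rw [hb g, hb1]
  have hrepr : ∀ x : E, IsIntegral ℤ x → ∀ g, IsIntegral ℤ ((d : F) * b.repr x g) := by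
    intro x hx g
    obtain ⟨c, hc⟩ := hcoord ⟨x, hx⟩
    have hc' : (d : F) • x = ∑ g, ((c g : 𝓞 F) : F) • b g := by
      rw [Algebra.smul_def, map_natCast]
      refine Eq.trans hc (Finset.sum_congr rfl fun g _ => ?_)
      rw [hb g]
    have h1 : b.repr ((d : F) • x) g = (c g : F) := by
      rw [hc', Module.Basis.repr_sum_self]
    rw [map_smul, Finsupp.smul_apply, smul_eq_mul] at h1
    rw [h1]
    exact (c g).2
  refine ⟨b, hbg, ?_, ⟨d, hd, hrepr⟩, (b.repr 1 1) • (θ : E), ?_, d, hd, ?_⟩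
  · rw [hb1]
    exact θ.2
  · have h1 : ∀ g, b.repr 1 g = b.repr 1 1 := by
      intro g
      have h2 := Pool.Agent.Q149.AR.repr_map hbg g 1 g
      rw [map_one g, inv_mul_cancel] at h2
      exact h2
    apply (algebraMap F E).injective
    rw [trace_eq_sum_automorphisms, map_one (algebraMap F E)]
    have h3 : ∀ g : E ≃ₐ[F] E, g (b.repr 1 1 • (θ : E)) = b.repr 1 g • b g := by
      intro g
      rw [h1 g, hb g, Algebra.smul_def, map_mul, AlgEquiv.commutes, Algebra.smul_def]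
    rw [Finset.sum_congr rfl fun g _ => h3 g]
    exact b.sum_repr 1
  · have h1 : (d : E) * (b.repr 1 1 • (θ : E)) = algebraMap F E ((d : F) * b.repr 1 1) * (θ : E) := by
      rw [Algebra.smul_def, map_mul, map_natCast]
      ring
    rw [h1]
    exact ((hrepr 1 isIntegral_one 1).algebraMap).mul θ.2

end Pool.Agent.H297.AS.NB
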